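import Pool.Agent.H5.BP.Basic

/-!
# The masses of `Q ∘ ψ_m`
-/

set_option autoImplicit false

namespace Pool.Agent.H30.BP

open Complex Metric Set Filter Topology
open Pool.Agent.H5.BP

/-- a locally injective map -/
theorem inj_near {χ : ℂ → ℂ} {c : ℂ} (hχ : AnalyticAt ℂ χ c) (h : deriv χ c ≠ 0) :
    ∃ s > 0, InjOn χ (ball c s) := by
  have h1 : HasStrictDerivAt χ (deriv χ c) c := hχ.hasStrictDerivAt
  have h2 := h1.hasStrictFDerivAt
  obtain ⟨s, hs, hs2⟩ : ∃ s > 0, ∀ x ∈ ball c s, ∀ y ∈ ball c s,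
      ‖χ x - χ y - deriv χ c * (x - y)‖ ≤ ‖deriv χ c‖ / 2 * ‖x - y‖ := by
    have h3 := h2.isLittleO.def (half_pos (norm_pos_iff.2 h))
    rw [Metric.eventually_nhds_iff_ball] at h3
    obtain ⟨s, hs, h3⟩ := h3
    refine ⟨s, hs, fun x hx y hy => ?_⟩
    have h4 := h3 (x, y) (by
      rw [mem_ball, Prod.dist_eq]
      exact max_lt (mem_ball.1 hx) (mem_ball.1 hy))
    simpa [mul_comm] using h4
  refine ⟨s, hs, fun x hx y hy hxy => ?_⟩
  by_contra hne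
  have h3 := hs2 x hx y hy
  rw [hxy, sub_self, zero_sub, norm_neg, norm_mul] at h3
  have h4 : 0 < ‖x - y‖ := norm_pos_iff.2 (sub_ne_zero.2 hne)
  have h5 : 0 < ‖deriv χ c‖ := norm_pos_iff.2 h
  nlinarith [mul_pos h4 h5]

/-- near a simple critical point a function takes no value three times -/
theorem two_near {Q : ℂ → ℂ} {c : ℂ} (hQ : AnalyticAt ℂ Q c) (h1 : deriv Q c = 0)
    (h2 : deriv (deriv Q) c ≠ 0) :
    ∃ s > 0, ∀ x ∈ ball c s, ∀ y ∈ ball c s, ∀ z ∈ ball c s, Q x = Q y → Q x = Q z →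
      x = y ∨ x = z ∨ y = z := by
  obtain ⟨p, hp⟩ := hQ
  have hg1 : AnalyticAt ℂ (dslope Q c) c := ⟨_, hp.has_fpower_series_dslope_fslope⟩
  obtain ⟨p1, hp1⟩ := hg1
  have hg : AnalyticAt ℂ (dslope (dslope Q c) c) c := ⟨_, hp1.has_fpower_series_dslope_fslope⟩
  obtain ⟨g, hgd⟩ : ∃ g, g = dslope (dslope Q c) c := ⟨_, rfl⟩
  rw [← hgd] at hg
  have hf : ∀ z, Q z = Q c + (z - c) ^ 2 * g z := by
    intro z
    have e1 := sub_smul_dslope Q c z
    have e2 := sub_smul_dslope (dslope Q c) c z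
    rw [dslope_same, h1, sub_zero, ← hgd] at e2
    rw [← e2] at e1
    simp only [smul_eq_mul] at e1
    linear_combination -e1
  have hgc : g c ≠ 0 := by
    intro h0
    apply h2
    have e1 : deriv Q =ᶠ[𝓝 c] fun z => 2 * (z - c) * g z + (z - c) ^ 2 * deriv g z := by
      filter_upwards [hg.eventually_analyticAt] with z hz
      have e2 : HasDerivAt (fun z => Q c + (z - c) ^ 2 * g z)
          (2 * (z - c) * g z + (z - c) ^ 2 * deriv g z) z := by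
        have a1 : HasDerivAt (fun z : ℂ => (z - c) ^ 2) (2 * (z - c)) z := by
          have := ((hasDerivAt_id z).sub_const c).fun_pow 2
          simpa using this
        exact (a1.mul hz.differentiableAt.hasDerivAt).const_add (Q c)
      have e3 : Q = fun z => Q c + (z - c) ^ 2 * g z := funext hf
      rw [e3]
      exact e2.deriv
    rw [e1.deriv_eq]
    have e2 : HasDerivAt (fun z => 2 * (z - c) * g z + (z - c) ^ 2 * deriv g z)
        (2 * g c + 2 * (c - c) * deriv g c + (2 * (c - c) * deriv g c + (c - c) ^ 2 * deriv (deriv g) c)) c := by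
      have a0 : HasDerivAt (fun z : ℂ => 2 * (z - c)) 2 c := by
        have := ((hasDerivAt_id c).sub_const c).const_mul 2
        simpa using this
      have a1 : HasDerivAt (fun z : ℂ => (z - c) ^ 2) (2 * (c - c)) c := by
        have := ((hasDerivAt_id c).sub_const c).fun_pow 2
        simpa using this
      exact (a0.mul hg.differentiableAt.hasDerivAt).add
        (a1.mul hg.deriv.differentiableAt.hasDerivAt)
    rw [e2.deriv, h0]
    ring
  obtain ⟨k, hk⟩ : ∃ k : ℂ, k ^ 2 = g c := IsAlgClosed.exists_pow_nat_eq (g c) two_pos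
  have hk0 : k ≠ 0 := by
    rintro rfl
    apply hgc
    rw [← hk]
    ring
  -- the square root
  obtain ⟨v, hv⟩ : ∃ v : ℂ → ℂ, v = fun z => Complex.exp (Complex.log (g z / g c) / 2) := ⟨_, rfl⟩
  have hva : AnalyticAt ℂ v c := by
    rw [hv]
    have a1 : AnalyticAt ℂ (fun z => g z / g c) c := hg.div_const
    have a2 : AnalyticAt ℂ (fun z => Complex.log (g z / g c)) c := by
      apply a1.clog
      rw [div_self hgc]
      exact Complex.one_mem_slitPlane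
    exact (a2.div_const).cexp
  have hvc : v c = 1 := by
    rw [hv]
    simp [div_self hgc]
  have hv2 : ∀ᶠ z in 𝓝 c, g c * v z ^ 2 = g z := by
    have a1 : ∀ᶠ z in 𝓝 c, g z ≠ 0 := hg.continuousAt.eventually_ne hgc
    filter_upwards [a1] with z hz
    rw [hv]
    simp only
    rw [← Complex.exp_nat_mul]
    have a2 : ((2 : ℕ) : ℂ) * (Complex.log (g z / g c) / 2) = Complex.log (g z / g c) := by
      push_cast
      ring
    rw [a2, Complex.exp_log (div_ne_zero hz hgc)]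
    field_simp
  obtain ⟨χ, hχ⟩ : ∃ χ : ℂ → ℂ, χ = fun z => (z - c) * (k * v z) := ⟨_, rfl⟩
  have hχa : AnalyticAt ℂ χ c := by
    rw [hχ]
    exact (analyticAt_id.sub analyticAt_const).mul (analyticAt_const.mul hva)
  have hχd : deriv χ c ≠ 0 := by
    have a1 : HasDerivAt χ (1 * (k * v c) + (c - c) * (k * deriv v c)) c := by
      rw [hχ]
      exact ((hasDerivAt_id c).sub_const c).mul (hva.differentiableAt.hasDerivAt.const_mul k)
    rw [a1.deriv, hvc]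
    simpa using hk0
  obtain ⟨s₁, hs₁, hinj⟩ := inj_near hχa hχd
  rw [Metric.eventually_nhds_iff_ball] at hv2
  obtain ⟨s₂, hs₂, hv2⟩ := hv2
  refine ⟨min s₁ s₂, lt_min hs₁ hs₂, ?_⟩
  have hsq : ∀ x ∈ ball c (min s₁ s₂), Q x = Q c + χ x ^ 2 := by
    intro x hx
    have a1 := hv2 x (ball_subset_ball (min_le_right _ _) hx)
    rw [hf x, hχ]
    simp only
    rw [← a1, ← hk]
    ring
  intro x hx y hy z hz hxy hxz
  have hx1 := ball_subset_ball (min_le_left s₁ s₂) hx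
  have hy1 := ball_subset_ball (min_le_left s₁ s₂) hy
  have hz1 := ball_subset_ball (min_le_left s₁ s₂) hz
  rw [hsq x hx, hsq y hy] at hxy
  rw [hsq x hx, hsq z hz] at hxz
  have h3 : χ x ^ 2 = χ y ^ 2 := add_left_cancel hxy
  have h4 : χ x ^ 2 = χ z ^ 2 := add_left_cancel hxz
  rcases sq_eq_sq_iff_eq_or_eq_neg.1 h3 with h5 | h5
  · exact Or.inl (hinj hx1 hy1 h5)
  · rcases sq_eq_sq_iff_eq_or_eq_neg.1 h4 with h6 | h6
    · exact Or.inr (Or.inl (hinj hx1 hz1 h6))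
    · refine Or.inr (Or.inr (hinj hy1 hz1 ?_))
      exact neg_injective (h5.symm.trans h6)

theorem norm_tau_le_sub {w z : ℂ} (hw : ‖w‖ < 1) (hz : ‖z‖ ≤ 1) : ‖tau w z‖ ≤ ‖z - w‖ / (1 - ‖w‖) := by
  unfold tau
  rw [norm_div]
  have h1 : 0 < 1 - ‖w‖ := by linarith
  have h2 : 1 - ‖w‖ ≤ ‖1 - (starRingEnd ℂ) w * z‖ := by
    have h3 : ‖(starRingEnd ℂ) w * z‖ ≤ ‖w‖ := by
      rw [norm_mul, RCLike.norm_conj]
      nlinarith [norm_nonneg w]
    have h4 := norm_sub_norm_le (1 : ℂ) ((starRingEnd ℂ) w * z)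
    rw [norm_one] at h4
    linarith
  gcongr

theorem norm_tau_le_one {w z : ℂ} (hw : ‖w‖ < 1) (hz : ‖z‖ < 1) : ‖tau w z‖ ≤ 1 := (norm_tau_lt hw hz).le

theorem norm_prod_le {Z : Multiset ℂ} {z : ℂ} (hZ : ∀ w ∈ Z, ‖w‖ < 1) (hz : ‖z‖ < 1) :
    ‖(Z.map fun w => tau w z).prod‖ ≤ 1 := by
  induction Z using Multiset.induction_on with
  | empty => simp
  | cons w Z ih =>
    rw [Multiset.map_cons, Multiset.prod_cons, norm_mul]
    have h1 := ih fun w hw => hZ w (Multiset.mem_cons_of_mem hw)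
    have h2 := norm_tau_le_one (hZ w (Multiset.mem_cons_self w Z)) hz
    nlinarith [norm_nonneg (tau w z), norm_nonneg ((Z.map fun w => tau w z).prod)]

theorem norm_prod_le_pow {Z : Multiset ℂ} {z : ℂ} {κ : ℝ} (hκ : 0 ≤ κ) (hZ : ∀ w ∈ Z, ‖tau w z‖ ≤ κ) :
    ‖(Z.map fun w => tau w z).prod‖ ≤ κ ^ Z.card := by
  induction Z using Multiset.induction_on with
  | empty => simp
  | cons w Z ih =>
    rw [Multiset.map_cons, Multiset.prod_cons, norm_mul, Multiset.card_cons, pow_succ']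
    have h1 := ih fun w hw => hZ w (Multiset.mem_cons_of_mem hw)
    have h2 := hZ w (Multiset.mem_cons_self w Z)
    gcongr

/-- the points of `Z` are preimages of `a` -/
theorem val_of_mem {Q : ℂ → ℂ} (hQ : FB Q) {a l : ℂ} (ha : ‖a‖ < 1) {Z : Multiset ℂ}
    (hZ : ∀ w ∈ Z, ‖w‖ < 1) (hfac : ∀ z, ‖z‖ ≤ 1 → tau a (Q z) = l * (Z.map fun w => tau w z).prod)
    {w : ℂ} (hw : w ∈ Z) : Q w = a := by
  have h1 := hfac w (hZ w hw).le
  have h2 : (Z.map fun w' => tau w' w).prod = 0 := by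
    apply Multiset.prod_eq_zero
    rw [Multiset.mem_map]
    exact ⟨w, hw, by simp [tau]⟩
  rw [h2, mul_zero] at h1
  unfold tau at h1
  rcases div_eq_zero_iff.1 h1 with h3 | h3
  · exact sub_eq_zero.1 h3
  · exact absurd h3 (den_ne ha (hQ.norm_le_one (hZ w hw).le))

/-- if `a` is not a critical value then `Z` has no repetitions -/
theorem nodup_of {Q : ℂ → ℂ} (hQ : FB Q) {a l : ℂ} (ha : ‖a‖ < 1) (hl : ‖l‖ = 1) {Z : Multiset ℂ}
    (hZ : ∀ w ∈ Z, ‖w‖ < 1) (hfac : ∀ z, ‖z‖ ≤ 1 → tau a (Q z) = l * (Z.map fun w => tau w z).prod)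
    (hcrit : ∀ z, ‖z‖ < 1 → Q z = a → deriv Q z ≠ 0) : Z.Nodup := by
  rw [Multiset.nodup_iff_le]
  intro w hle
  have hle' : (w ::ₘ {w} : Multiset ℂ) ≤ Z := hle
  obtain ⟨Y, hY⟩ := Multiset.le_iff_exists_add.1 hle'
  have hw : w ∈ Z := by rw [hY]; simp
  have hw1 := hZ w hw
  have hval := val_of_mem hQ ha hZ hfac hw
  apply hcrit w hw1 hval
  have hYZ : ∀ v ∈ Y, ‖v‖ < 1 := fun v hv => hZ v (by rw [hY]; simp [hv])
  -- quadratic bound
  have h1 : ∀ᶠ z in 𝓝 w, ‖tau a (Q z)‖ ≤ (1 / (1 - ‖w‖)) ^ 2 * ‖‖z - w‖ ^ 2‖ := by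
    filter_upwards [isOpen_ball.mem_nhds (by simpa using hw1 : w ∈ ball (0 : ℂ) 1)] with z hz
    have hz1 : ‖z‖ < 1 := by simpa using hz
    rw [hfac z hz1.le, hY]
    rw [norm_mul, hl, one_mul, Multiset.map_add, Multiset.prod_add, norm_mul]
    have e1 : ((w ::ₘ {w} : Multiset ℂ).map fun w => tau w z).prod = tau w z * tau w z := by simp
    rw [e1, norm_mul]
    have e2 := norm_prod_le hYZ hz1
    have e3 := norm_tau_le_sub hw1 hz1.le
    have e4 : (1 / (1 - ‖w‖)) ^ 2 * ‖‖z - w‖ ^ 2‖ = (‖z - w‖ / (1 - ‖w‖)) * (‖z - w‖ / (1 - ‖w‖)) * 1 := by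
      rw [Real.norm_eq_abs, abs_of_nonneg (by positivity)]
      ring
    rw [e4]
    have h5 : 0 ≤ ‖z - w‖ / (1 - ‖w‖) := div_nonneg (norm_nonneg _) (by linarith)
    gcongr
  have h2 : HasFDerivAt (fun z => tau a (Q z)) (0 : ℂ →L[ℂ] ℂ) w :=
    Asymptotics.IsBigO.hasFDerivAt (n := 2) (Asymptotics.IsBigO.of_bound _ h1) (by norm_num)
  have h3 : HasDerivAt (fun z => tau a (Q z)) 0 w := by
    have := h2.hasDerivAt
    simpa using this
  have h4 : HasDerivAt (fun z => tau a (Q z))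
      ((1 - (starRingEnd ℂ) a * a) / (1 - (starRingEnd ℂ) a * Q w) ^ 2 * deriv Q w) w :=
    (hasDerivAt_tau ha (hQ.norm_le_one hw1.le)).comp w (hQ.differentiableAt hw1.le).hasDerivAt
  have h5 := h4.unique h3
  rcases mul_eq_zero.1 h5 with h6 | h6
  · exfalso
    rcases div_eq_zero_iff.1 h6 with h7 | h7
    · exact den_ne ha ha.le h7
    · exact den_ne ha (hQ.norm_le_one hw1.le) (pow_eq_zero_iff two_ne_zero |>.1 h7)
  · exact h6

/-- the neighbourhood of the critical set in which no value is taken three times -/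
theorem exists_nbhd {Q : ℂ → ℂ} (hQ : FB Q) (hG : Generic Q) {ρ : ℝ}
    (hρ : ∀ z, ‖z‖ < 1 → deriv Q z = 0 → ρ < ‖z‖) :
    ∃ s > 0, (∀ c, ‖c‖ < 1 → deriv Q c = 0 → ∀ w ∈ ball c s, ρ ≤ ‖w‖) ∧
      ∀ c c' c'', ‖c‖ < 1 → deriv Q c = 0 → ‖c'‖ < 1 → deriv Q c' = 0 → ‖c''‖ < 1 → deriv Q c'' = 0 →
        ∀ x ∈ ball c s, ∀ y ∈ ball c' s, ∀ z ∈ ball c'' s, Q x = Q y → Q x = Q z →
        x = y ∨ x = z ∨ y = z := by
  obtain ⟨A, hA⟩ : ∃ A : Set ℂ, A = {z : ℂ | ‖z‖ < 1 ∧ deriv Q z = 0} := ⟨_, rfl⟩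
  have hfin : A.Finite := by rw [hA]; exact hQ.crit_finite
  -- for each critical point
  have h1 : ∀ c ∈ A, ∀ᶠ s in 𝓝[>] (0 : ℝ), (∀ w ∈ ball c s, ρ ≤ ‖w‖) ∧
      ∀ x ∈ ball c s, ∀ y ∈ ball c s, ∀ z ∈ ball c s, Q x = Q y → Q x = Q z → x = y ∨ x = z ∨ y = z := by
    intro c hc
    rw [hA] at hc
    obtain ⟨s, hs, hs2⟩ := two_near (hQ.an c (by simpa using hc.1.le)) hc.2 (hG.1 c hc.1 hc.2)
    have h2 : 0 < ‖c‖ - ρ := by linarith [hρ c hc.1 hc.2]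
    filter_upwards [Ioo_mem_nhdsGT (lt_min hs h2)] with t ht
    refine ⟨fun w hw => ?_, ?_⟩
    · have h3 : ‖w - c‖ < t := by simpa [dist_eq_norm] using hw
      have h4 : t < ‖c‖ - ρ := lt_of_lt_of_le ht.2 (min_le_right _ _)
      have h5 := norm_sub_norm_le c w
      rw [norm_sub_rev] at h5
      linarith
    · have hsub : ball c t ⊆ ball c s := ball_subset_ball (ht.2.le.trans (min_le_left _ _))
      intro x hx y hy z hz
      exact hs2 x (hsub hx) y (hsub hy) z (hsub hz)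
  have h2 : ∀ c ∈ A, ∀ c' ∈ A, ∀ᶠ s in 𝓝[>] (0 : ℝ), c ≠ c' → ∀ x ∈ ball c s, ∀ y ∈ ball c' s, Q x ≠ Q y := by
    intro c hc c' hc'
    by_cases hne : c = c'
    · exact Eventually.of_forall fun s h => absurd hne h
    rw [hA] at hc hc'
    have h3 : Q c ≠ Q c' := fun h => hne (hG.2 c c' hc.1 hc'.1 hc.2 hc'.2 h)
    obtain ⟨U₁, U₂, hU₁, hU₂, hm₁, hm₂, hdis⟩ := t2_separation h3
    have h4 := (hQ.an c (by simpa using hc.1.le)).continuousAt.preimage_mem_nhds (hU₁.mem_nhds hm₁)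
    have h5 := (hQ.an c' (by simpa using hc'.1.le)).continuousAt.preimage_mem_nhds (hU₂.mem_nhds hm₂)
    obtain ⟨s₁, hs₁, hb₁⟩ := Metric.mem_nhds_iff.1 h4
    obtain ⟨s₂, hs₂, hb₂⟩ := Metric.mem_nhds_iff.1 h5
    filter_upwards [Ioo_mem_nhdsGT (lt_min hs₁ hs₂)] with t ht _ x hx y hy hxy
    have h6 : Q x ∈ U₁ := hb₁ (ball_subset_ball (ht.2.le.trans (min_le_left _ _)) hx)
    have h7 : Q y ∈ U₂ := hb₂ (ball_subset_ball (ht.2.le.trans (min_le_right _ _)) hy)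
    rw [hxy] at h6
    exact Set.disjoint_left.1 hdis h6 h7
  have h3 : ∀ᶠ s in 𝓝[>] (0 : ℝ), ∀ c ∈ A, (∀ w ∈ ball c s, ρ ≤ ‖w‖) ∧
      ∀ x ∈ ball c s, ∀ y ∈ ball c s, ∀ z ∈ ball c s, Q x = Q y → Q x = Q z → x = y ∨ x = z ∨ y = z :=
    (hfin.eventually_all).2 h1
  have h4 : ∀ᶠ s in 𝓝[>] (0 : ℝ), ∀ c ∈ A, ∀ c' ∈ A, c ≠ c' → ∀ x ∈ ball c s, ∀ y ∈ ball c' s, Q x ≠ Q y :=
    (hfin.eventually_all).2 fun c hc => (hfin.eventually_all).2 (h2 c hc)
  obtain ⟨s, ⟨h5, h6⟩, h7⟩ := ((h3.and h4).and self_mem_nhdsWithin).exists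
  have hs : 0 < s := h7
  refine ⟨s, hs, ?_, ?_⟩
  · intro c hc hc2
    exact (h5 c (by rw [hA]; exact ⟨hc, hc2⟩)).1
  · intro c c' c'' hc hc2 hc' hc2' hc'' hc2'' x hx y hy z hz hxy hxz
    have m1 : c ∈ A := by rw [hA]; exact ⟨hc, hc2⟩
    have m2 : c' ∈ A := by rw [hA]; exact ⟨hc', hc2'⟩
    have m3 : c'' ∈ A := by rw [hA]; exact ⟨hc'', hc2''⟩
    have e1 : c = c' := by
      by_contra hne
      exact h6 c m1 c' m2 hne x hx y hy hxy
    have e2 : c = c'' := by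
      by_contra hne
      exact h6 c m1 c'' m3 hne x hx z hz hxz
    subst e1
    subst e2
    exact (h5 c m1).2 x hx y hy z hz hxy hxz

/-- all points with `|Q| ≤ 1 - ε/2` are in a smaller disk -/
theorem exists_radius {Q : ℂ → ℂ} (hQ : FB Q) {ε : ℝ} (hε : 0 < ε) (hε1 : ε < 1) :
    ∃ R : ℝ, 0 ≤ R ∧ R < 1 ∧ ∀ z, ‖z‖ ≤ 1 → ‖Q z‖ ≤ 1 - ε / 2 → ‖z‖ ≤ R := by
  obtain ⟨K, hK⟩ : ∃ K : Set ℂ, K = closedBall (0 : ℂ) 1 ∩ {z | ‖Q z‖ ≤ 1 - ε / 2} := ⟨_, rfl⟩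
  have hKc : IsCompact K := by
    rw [hK]
    have h1 : IsClosed (closedBall (0 : ℂ) 1 ∩ (fun z => ‖Q z‖) ⁻¹' Iic (1 - ε / 2)) :=
      (hQ.continuousOn.norm).preimage_isClosed_of_isClosed isClosed_closedBall isClosed_Iic
    exact (isCompact_closedBall (0 : ℂ) 1).of_isClosed_subset h1 inter_subset_left
  have h0 : (0 : ℂ) ∈ K := by
    rw [hK]
    refine ⟨by simp, ?_⟩
    show ‖Q 0‖ ≤ 1 - ε / 2
    rw [hQ.zero, norm_zero]
    linarith
  obtain ⟨z₀, hz₀, hmax⟩ := hKc.exists_isMaxOn ⟨0, h0⟩ (continuous_norm.continuousOn)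
  rw [hK] at hz₀
  have h1 : ‖z₀‖ ≤ 1 := by simpa using hz₀.1
  refine ⟨‖z₀‖, norm_nonneg _, lt_of_le_of_ne h1 ?_, fun z hz hz2 => ?_⟩
  · intro h
    have h2 := hQ.uni z₀ h
    have h3 : ‖Q z₀‖ ≤ 1 - ε / 2 := hz₀.2
    linarith
  · exact hmax (by rw [hK]; exact ⟨by simpa using hz, hz2⟩)

/-- the number of the preimages is bounded -/
theorem exists_card {Q : ℂ → ℂ} (hQ : FB Q) {ε R : ℝ} (hε : 0 < ε) (hR0 : 0 ≤ R) (hR : R < 1)
    (hRQ : ∀ z, ‖z‖ ≤ 1 → ‖Q z‖ ≤ 1 - ε / 2 → ‖z‖ ≤ R) :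
    ∃ N : ℕ, ∀ (a l : ℂ) (Z : Multiset ℂ), ‖a‖ ≤ 1 - ε → ‖l‖ = 1 → (∀ w ∈ Z, ‖w‖ ≤ R) →
      (∀ z, ‖z‖ ≤ 1 → tau a (Q z) = l * (Z.map fun w => tau w z).prod) → Z.card ≤ N := by
  obtain ⟨x, hx⟩ : ∃ x : ℂ, x = (((R + 1) / 2 : ℝ) : ℂ) := ⟨_, rfl⟩
  have hxn : ‖x‖ = (R + 1) / 2 := by
    rw [hx, Complex.norm_real, Real.norm_eq_abs, abs_of_nonneg (by linarith)]
  have hx1 : ‖x‖ < 1 := by rw [hxn]; linarith
  have hxQ : 1 - ε / 2 < ‖Q x‖ := by
    by_contra hcon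
    have := hRQ x hx1.le (not_lt.1 hcon)
    rw [hxn] at this
    linarith
  -- the largest factor
  have hcont : ContinuousOn (fun w : ℂ => ‖tau w x‖) (closedBall 0 R) := by
    apply ContinuousOn.norm
    unfold tau
    apply ContinuousOn.div
    · exact (continuousOn_const.sub continuousOn_id)
    · exact continuousOn_const.sub ((Complex.continuous_conj.continuousOn).mul continuousOn_const)
    · intro w hw
      have hw1 : ‖w‖ ≤ R := by simpa using hw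
      exact den_ne (by linarith) hx1.le
  obtain ⟨w₀, hw₀, hmax⟩ := (isCompact_closedBall (0 : ℂ) R).exists_isMaxOn ⟨0, by simpa using hR0⟩ hcont
  obtain ⟨κ, hκ⟩ : ∃ κ : ℝ, κ = ‖tau w₀ x‖ := ⟨_, rfl⟩
  have hκ0 : 0 ≤ κ := by rw [hκ]; exact norm_nonneg _
  have hκ1 : κ < 1 := by
    rw [hκ]
    have hw1 : ‖w₀‖ ≤ R := by simpa using hw₀
    exact norm_tau_lt (by linarith) hx1
  obtain ⟨N, hN⟩ := exists_pow_lt_of_lt_one (show 0 < ε / 4 by linarith) hκ1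
  refine ⟨N, fun a l Z ha hl hZ hfac => ?_⟩
  by_contra hcon
  have h1 : N ≤ Z.card := by omega
  have h2 := hfac x hx1.le
  have h3 : ‖tau a (Q x)‖ ≤ κ ^ Z.card := by
    rw [h2, norm_mul, hl, one_mul]
    apply norm_prod_le_pow hκ0
    intro w hw
    rw [hκ]
    exact hmax (by simpa using hZ w hw)
  have h4 : ε / 4 ≤ ‖tau a (Q x)‖ := by
    unfold tau
    rw [norm_div]
    have ha1 : ‖a‖ < 1 := by linarith
    have hQ1 := hQ.norm_le_one hx1.le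
    have h5 : 0 < ‖1 - (starRingEnd ℂ) a * Q x‖ := norm_pos_iff.2 (den_ne ha1 hQ1)
    have h6 : ‖1 - (starRingEnd ℂ) a * Q x‖ ≤ 2 := by
      have h7 := norm_sub_le (1 : ℂ) ((starRingEnd ℂ) a * Q x)
      rw [norm_one, norm_mul, RCLike.norm_conj] at h7
      nlinarith [norm_nonneg a, norm_nonneg (Q x)]
    have h7 : ε / 2 ≤ ‖Q x - a‖ := by
      have h8 := norm_sub_norm_le (Q x) a
      linarith
    rw [le_div_iff₀ h5]
    nlinarith
  have h5 : κ ^ Z.card ≤ κ ^ N := pow_le_pow_of_le_one hκ0 hκ1.le h1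
  linarith

/-- F. The masses of `Q ∘ ψ_m`. -/
theorem mass (h_fac : S_fac) (h_comp : S_comp) (h_U : S_U) (h_unif : S_unif) : S_mass := by
  intro Q ρ ε ψ hQ hG hρ hρ1 hε hε1 hcrit hres hlog
  obtain ⟨A, hA⟩ : ∃ A : Set ℂ, A = {z : ℂ | ‖z‖ < 1 ∧ deriv Q z = 0} := ⟨_, rfl⟩
  have hfin : A.Finite := by rw [hA]; exact hQ.crit_finite
  rw [← hA] at hres
  obtain ⟨s, hs, hs1, hs2⟩ := exists_nbhd hQ hG hcrit
  obtain ⟨R, hR0, hR1, hRQ⟩ := exists_radius hQ hε hε1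
  obtain ⟨N, hN⟩ := exists_card hQ hε hR0 hR1 hRQ
  -- the compact set
  obtain ⟨K, hK⟩ : ∃ K : Set ℂ, K = closedBall (0 : ℂ) R ∩ {w | ∀ c ∈ A, s ≤ ‖w - c‖} := ⟨_, rfl⟩
  have hKc : IsCompact K := by
    rw [hK]
    apply (isCompact_closedBall (0 : ℂ) R).inter_right
    have e1 : {w : ℂ | ∀ c ∈ A, s ≤ ‖w - c‖} = ⋂ c ∈ A, {w : ℂ | s ≤ ‖w - c‖} := by
      ext w
      simp
    rw [e1]
    apply isClosed_biInter
    intro c _
    exact isClosed_le continuous_const (continuous_id.sub continuous_const).norm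
  have hK1 : ∀ w ∈ K, ‖w‖ < 1 ∧ w ∉ A := by
    intro w hw
    rw [hK] at hw
    have h1 : ‖w‖ ≤ R := by simpa using hw.1
    refine ⟨by linarith, fun hwA => ?_⟩
    have h2 := hw.2 w hwA
    rw [sub_self, norm_zero] at h2
    linarith
  have hAρ : ∀ z ∈ A, ρ ≤ ‖z‖ ∧ ‖z‖ < 1 := by
    intro z hz
    rw [hA] at hz
    exact ⟨(hcrit z hz.1 hz.2).le, hz.1⟩
  obtain ⟨δ, hδ⟩ : ∃ δ : ℝ, δ = (ε + 2 * Real.log ρ) / (N + 1) := ⟨_, rfl⟩
  have hN1 : (0 : ℝ) < N + 1 := by positivity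
  have hδ0 : 0 < δ := by
    rw [hδ]
    apply div_pos _ hN1
    linarith
  obtain ⟨r, hr0, hr1, hr⟩ := h_unif A ρ ψ hfin hρ hρ1 hAρ hres K hKc hK1 δ hδ0
  refine ⟨r, hr0, hr1, fun m a ha hac => ?_⟩
  have ha1 : ‖a‖ < 1 := by linarith
  obtain ⟨Z, l, hl, hZ, hfac⟩ := h_fac Q hQ a ha1
  rw [h_comp Q (ψ m) a l Z hQ (hres.fb m) ha1 hl hZ hfac r hr0 hr1]
  have hnd := nodup_of hQ ha1 hl hZ hfac hac
  have hval : ∀ w ∈ Z, Q w = a := fun w hw => val_of_mem hQ ha1 hZ hfac hw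
  have hZR : ∀ w ∈ Z, ‖w‖ ≤ R := by
    intro w hw
    apply hRQ w (hZ w hw).le
    rw [hval w hw]
    linarith
  have hcard := hN a l Z ha hl hZR hfac
  obtain ⟨F, hF⟩ : ∃ F : Finset ℂ, F = ⟨Z, hnd⟩ := ⟨_, rfl⟩
  have hFZ : ∀ w, w ∈ F ↔ w ∈ Z := by intro w; rw [hF]; exact Iff.rfl
  have hsum : (Z.map fun w => U r w (ψ m)).sum = ∑ w ∈ F, U r w (ψ m) := by rw [hF]; rfl
  have hFc : F.card ≤ N := by rw [hF]; exact hcard
  rw [hsum]
  classical
  rw [← Finset.sum_filter_add_sum_filter_not F (fun w => ∃ c ∈ A, w ∈ ball c s)]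
  -- the near ones
  have hnear : ((F.filter fun w => ∃ c ∈ A, w ∈ ball c s).card : ℝ) ≤ 2 := by
    have : (F.filter fun w => ∃ c ∈ A, w ∈ ball c s).card ≤ 2 := by
      by_contra hcon
      rw [not_le, Finset.two_lt_card] at hcon
      obtain ⟨x, hx, y, hy, z, hz, hxy, hxz, hyz⟩ := hcon
      rw [Finset.mem_filter] at hx hy hz
      obtain ⟨hx1, c, hc, hx2⟩ := hx
      obtain ⟨hy1, c', hc', hy2⟩ := hy
      obtain ⟨hz1, c'', hc'', hz2⟩ := hz
      rw [hA] at hc hc' hc''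
      have e1 : Q x = Q y := by rw [hval x ((hFZ x).1 hx1), hval y ((hFZ y).1 hy1)]
      have e2 : Q x = Q z := by rw [hval x ((hFZ x).1 hx1), hval z ((hFZ z).1 hz1)]
      rcases hs2 c c' c'' hc.1 hc.2 hc'.1 hc'.2 hc''.1 hc''.2 x hx2 y hy2 z hz2 e1 e2 with h | h | h
      · exact hxy h
      · exact hxz h
      · exact hyz h
    exact_mod_cast this
  have hlogρ : 0 ≤ -Real.log ρ := by
    have := Real.log_nonpos hρ.le hρ1.le
    linarith
  have hsum1 : ∑ w ∈ F.filter (fun w => ∃ c ∈ A, w ∈ ball c s), U r w (ψ m) ≤ 2 * (-Real.log ρ) := by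
    calc _ ≤ ∑ w ∈ F.filter (fun w => ∃ c ∈ A, w ∈ ball c s), (-Real.log ρ) := by
          apply Finset.sum_le_sum
          intro w hw
          rw [Finset.mem_filter] at hw
          obtain ⟨hw1, c, hc, hw2⟩ := hw
          rw [hA] at hc
          have hwρ : ρ ≤ ‖w‖ := hs1 c hc.1 hc.2 w hw2
          have hw0 : w ≠ 0 := by
            intro h
            rw [h, norm_zero] at hwρ
            linarith
          have h1 := (h_U (ψ m) w (hres.fb m) (hZ w ((hFZ w).1 hw1))).2.2 hw0 r hr0 hr1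
          have h2 := Real.log_le_log hρ hwρ
          linarith
      _ = ((F.filter fun w => ∃ c ∈ A, w ∈ ball c s).card : ℝ) * (-Real.log ρ) := by
          rw [Finset.sum_const, nsmul_eq_mul]
      _ ≤ _ := by gcongr
  have hsum2 : ∑ w ∈ F.filter (fun w => ¬ ∃ c ∈ A, w ∈ ball c s), U r w (ψ m) ≤ (N + 1) * δ := by
    calc _ ≤ ∑ w ∈ F.filter (fun w => ¬ ∃ c ∈ A, w ∈ ball c s), δ := by
          apply Finset.sum_le_sum
          intro w hw
          rw [Finset.mem_filter] at hw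
          obtain ⟨hw1, hw2⟩ := hw
          apply hr m w
          rw [hK]
          refine ⟨by simpa using hZR w ((hFZ w).1 hw1), fun c hc => ?_⟩
          by_contra hlt
          exact hw2 ⟨c, hc, by rw [mem_ball, dist_eq_norm]; exact not_le.1 hlt⟩
      _ = ((F.filter fun w => ¬ ∃ c ∈ A, w ∈ ball c s).card : ℝ) * δ := by
          rw [Finset.sum_const, nsmul_eq_mul]
      _ ≤ _ := by
          have h1 : (F.filter fun w => ¬ ∃ c ∈ A, w ∈ ball c s).card ≤ N := (Finset.card_filter_le _ _).trans hFc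
          have h2 : ((F.filter fun w => ¬ ∃ c ∈ A, w ∈ ball c s).card : ℝ) ≤ N := by exact_mod_cast h1
          have h3 : ((F.filter fun w => ¬ ∃ c ∈ A, w ∈ ball c s).card : ℝ) ≤ N + 1 := by linarith
          gcongr
  have hδ2 : (N + 1) * δ = ε + 2 * Real.log ρ := by
    rw [hδ]
    field_simp
  linarith

end Pool.Agent.H30.BP
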